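import Mathlib
import Pool.Agent.H103R2.RF.Core

/-!
# A residually finite one-relator group that is not residually solvable

`G = ⟨x, t | t^2 x t^-2 = [x, t x t^-1]⟩` is the ascending HNN extension of the free group on `x, y`
with respect to the injective endomorphism `x ↦ y`, `y ↦ [x, y]`.
-/

set_option autoImplicit false

namespace Pool.Agent.TH922.OneRel

open Monoid

/-- The free group of rank two. -/
abbrev F2 : Type := FreeGroup (Fin 2)

/-- The first generator. -/
def x : F2 := FreeGroup.of 0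

/-- The second generator. -/
def y : F2 := FreeGroup.of 1

/-- The endomorphism `x ↦ y`, `y ↦ [x, y]`. -/
def phi : F2 →* F2 := FreeGroup.lift ![y, x * y * x⁻¹ * y⁻¹]

theorem phi_x : phi x = y := by simp [phi, x]

theorem phi_y : phi y = x * y * x⁻¹ * y⁻¹ := by
  unfold phi
  rw [y, FreeGroup.lift_apply_of]
  rfl

/-- The shift automorphism of the free group on the integers. -/
def sh : MulAut (FreeGroup ℤ) := FreeGroup.freeGroupCongr (Equiv.addRight 1)

theorem sh_of (n : ℤ) : sh (FreeGroup.of n) = FreeGroup.of (n + 1) := by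
  simp [sh]

/-- The action of the integers. -/
def act : Multiplicative ℤ →* MulAut (FreeGroup ℤ) := zpowersHom _ sh

theorem act_one : act (Multiplicative.ofAdd 1) = sh := by simp [act]

/-- The map from the free group to the semidirect product. -/
def psi : F2 →* FreeGroup ℤ ⋊[act] Multiplicative ℤ :=
  FreeGroup.lift ![SemidirectProduct.inr (Multiplicative.ofAdd 1),
    SemidirectProduct.inl (FreeGroup.of 0)]

theorem psi_x : psi x = SemidirectProduct.inr (Multiplicative.ofAdd 1) := by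
  simp [psi, x]

theorem psi_y : psi y = SemidirectProduct.inl (FreeGroup.of 0) := by
  simp [psi, y]

/-- The map `x ↦ e 0`, `y ↦ e 1 * (e 0)⁻¹`. -/
def kap : F2 →* FreeGroup ℤ :=
  FreeGroup.lift ![FreeGroup.of 0, FreeGroup.of 1 * (FreeGroup.of 0)⁻¹]

/-- A left inverse. -/
def lam : FreeGroup ℤ →* F2 :=
  FreeGroup.lift fun n => if n = 0 then x else if n = 1 then y * x else 1

theorem lam_kap (w : F2) : lam (kap w) = w := by
  have h : lam.comp kap = MonoidHom.id F2 := by
    apply FreeGroup.ext_hom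
    intro i
    fin_cases i
    · simp [kap, lam, x]
    · simp [kap, lam, x, y]
  exact DFunLike.congr_fun h w

theorem psi_phi (w : F2) : psi (phi w) = SemidirectProduct.inl (kap w) := by
  have h : psi.comp phi = (SemidirectProduct.inl : FreeGroup ℤ →* FreeGroup ℤ ⋊[act] Multiplicative ℤ).comp kap := by
    apply FreeGroup.ext_hom
    intro i
    fin_cases i
    · change psi (phi x) = SemidirectProduct.inl (kap x)
      rw [phi_x, psi_y]
      simp [kap, x]
    · change psi (phi y) = SemidirectProduct.inl (kap y)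
      rw [phi_y, map_mul, map_mul, map_mul, map_inv, map_inv, psi_x, psi_y]
      have h1 : kap y = FreeGroup.of 1 * (FreeGroup.of 0)⁻¹ := by simp [kap, y]
      rw [h1, map_mul, map_inv]
      have h2 := SemidirectProduct.inl_aut (φ := act) (Multiplicative.ofAdd 1) (FreeGroup.of 0)
      rw [act_one, sh_of, zero_add] at h2
      rw [h2, map_inv]
  exact DFunLike.congr_fun h w

theorem phi_inj : Function.Injective phi := by
  rw [injective_iff_map_eq_one]
  intro w hw
  have h1 := psi_phi w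
  rw [hw, map_one] at h1
  have h2 : kap w = 1 := SemidirectProduct.inl_injective (h1.symm.trans (map_one _).symm)
  have h3 := lam_kap w
  rw [h2, map_one] at h3
  exact h3.symm

theorem iter_ne {w : F2} (hw : w ≠ 1) (m : ℕ) : phi^[m] w ≠ 1 := by
  induction m with
  | zero => exact hw
  | succ m ih =>
    rw [Function.iterate_succ_apply']
    intro h
    exact ih (phi_inj (h.trans (map_one phi).symm))

/-- Periodic finite quotients of the free group. -/
theorem quot {w : F2} (hw : w ≠ 1) :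
    ∃ (Γ : Type) (_ : Group Γ) (_ : Finite Γ) (Ψ : F2 →* Γ) (τ : Γ),
      (∀ p, τ * Ψ p * τ⁻¹ = Ψ (phi p)) ∧ Ψ w ≠ 1 := by
  let Θ : Coprod PUnit.{1} F2 →* Coprod PUnit.{1} F2 :=
    Coprod.lift Coprod.inl (Coprod.inr.comp phi)
  have h1 : ∀ p : F2, Θ (Coprod.inr p) = Coprod.inr (phi p) := fun p => by simp [Θ]
  have h2 : ∀ (m : ℕ) (p : F2), Θ^[m] (Coprod.inr p) = Coprod.inr (phi^[m] p) := by
    intro m
    induction m with
    | zero => intro p; rfl
    | succ m ih => intro p; rw [Function.iterate_succ_apply, h1, ih, Function.iterate_succ_apply]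
  obtain ⟨Γ, i1, i2, Ψ, τ, h3, h4⟩ := Pool.Agent.H103R2.RF.core Θ (fun a => by simp [Θ])
    (Coprod.inr w) (fun m => by
      rw [h2]
      intro h
      exact iter_ne hw m (Coprod.inr_injective (h.trans (map_one _).symm)))
  refine ⟨Γ, i1, i2, Ψ.comp Coprod.inr, τ, fun p => ?_, h4⟩
  rw [MonoidHom.comp_apply, MonoidHom.comp_apply, h3, h1]

/-- The relator, in the generators `x` (first) and `t` (second). -/
def rel : F2 :=
  y * (y * x * y⁻¹) * y⁻¹ * (x * (y * x * y⁻¹) * x⁻¹ * (y * x * y⁻¹)⁻¹)⁻¹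

/-- The group. -/
abbrev G : Type := PresentedGroup ({rel} : Set F2)

/-- The generator `x`. -/
def X : G := PresentedGroup.of 0

/-- The generator `t`. -/
def T : G := PresentedGroup.of 1

/-- The element `y = t x t⁻¹`. -/
def Y : G := T * X * T⁻¹

theorem rel_G : T * Y * T⁻¹ = X * Y * X⁻¹ * Y⁻¹ := by
  have h : PresentedGroup.mk ({rel} : Set F2) rel = 1 :=
    PresentedGroup.one_of_mem rfl
  unfold rel at h
  rw [map_mul, map_inv, mul_inv_eq_one] at h
  simp only [map_mul, map_inv] at h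
  exact h

/-- The map from the free group to `G`. -/
def io : F2 →* G := FreeGroup.lift ![X, Y]

theorem io_x : io x = X := by simp [io, x]

theorem io_y : io y = Y := by simp [io, y]

theorem conj_io (w : F2) : T * io w * T⁻¹ = io (phi w) := by
  have h : (MulAut.conj T).toMonoidHom.comp io = io.comp phi := by
    apply FreeGroup.ext_hom
    intro i
    fin_cases i
    · change T * io x * T⁻¹ = io (phi x)
      rw [phi_x, io_x, io_y]
      rfl
    · change T * io y * T⁻¹ = io (phi y)
      rw [phi_y, map_mul, map_mul, map_mul, map_inv, map_inv, io_x, io_y, rel_G]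
  exact DFunLike.congr_fun h w

theorem T_io (w : F2) : T * io w = io (phi w) * T := by
  rw [← conj_io w, inv_mul_cancel_right]

theorem Tpow_io (b : ℕ) (w : F2) : T ^ b * io w = io (phi^[b] w) * T ^ b := by
  induction b with
  | zero => simp
  | succ b ih =>
    rw [pow_succ', mul_assoc, ih, ← mul_assoc, T_io, Function.iterate_succ_apply', mul_assoc]

/-- The normal form. -/
theorem nform (g : G) : ∃ (a b : ℕ) (w : F2), g = (T ^ a)⁻¹ * io w * T ^ b := by
  have hX : ∀ (g : G) (v : F2), (∃ (a b : ℕ) (w : F2), g = (T ^ a)⁻¹ * io w * T ^ b) →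
      ∃ (a b : ℕ) (w : F2), g * io v = (T ^ a)⁻¹ * io w * T ^ b := by
    rintro _ v ⟨a, b, w, rfl⟩
    refine ⟨a, b, w * phi^[b] v, ?_⟩
    rw [mul_assoc, Tpow_io, map_mul]
    group
  have hT : ∀ (g : G), (∃ (a b : ℕ) (w : F2), g = (T ^ a)⁻¹ * io w * T ^ b) →
      ∃ (a b : ℕ) (w : F2), g * T = (T ^ a)⁻¹ * io w * T ^ b := by
    rintro _ ⟨a, b, w, rfl⟩
    exact ⟨a, b + 1, w, by rw [pow_succ, mul_assoc]⟩
  have hT' : ∀ (g : G), (∃ (a b : ℕ) (w : F2), g = (T ^ a)⁻¹ * io w * T ^ b) →
      ∃ (a b : ℕ) (w : F2), g * T⁻¹ = (T ^ a)⁻¹ * io w * T ^ b := by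
    rintro _ ⟨a, b, w, rfl⟩
    rcases b with _ | b
    · refine ⟨a + 1, 0, phi w, ?_⟩
      rw [← conj_io w, pow_succ']
      group
    · exact ⟨a, b, w, by rw [pow_succ, ← mul_assoc, mul_inv_cancel_right]⟩
  have hg : g ∈ Subgroup.closure (Set.range (PresentedGroup.of (rels := ({rel} : Set F2)))) := by
    rw [PresentedGroup.closure_range_of]
    exact Subgroup.mem_top _
  induction hg using Subgroup.closure_induction_right with
  | one => exact ⟨0, 0, 1, by simp⟩
  | mul_right u hu v hv ih =>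
    obtain ⟨i, rfl⟩ := hv
    fin_cases i
    · have := hX u x ih
      rw [io_x] at this
      exact this
    · exact hT u ih
  | mul_inv_cancel u hu v hv ih =>
    obtain ⟨i, rfl⟩ := hv
    fin_cases i
    · have := hX u x⁻¹ ih
      rw [map_inv, io_x] at this
      exact this
    · exact hT' u ih

/-- The hom to a finite group. -/
theorem toFin {Γ : Type} [Group Γ] (Ψ : F2 →* Γ) (τ : Γ) (h : ∀ p, τ * Ψ p * τ⁻¹ = Ψ (phi p)) :
    ∃ f : G →* Γ, f T = τ ∧ ∀ w, f (io w) = Ψ w := by
  have h0 : τ * Ψ x * τ⁻¹ = Ψ y := by rw [h, phi_x]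
  have h1 : τ * Ψ y * τ⁻¹ = Ψ x * Ψ y * (Ψ x)⁻¹ * (Ψ y)⁻¹ := by
    rw [h, phi_y, map_mul, map_mul, map_mul, map_inv, map_inv]
  have hr : ∀ r ∈ ({rel} : Set F2), FreeGroup.lift ![Ψ x, τ] r = 1 := by
    rintro r rfl
    have e0 : FreeGroup.lift ![Ψ x, τ] x = Ψ x := by simp [x]
    have e1 : FreeGroup.lift ![Ψ x, τ] y = τ := by simp [y]
    unfold rel
    simp only [map_mul, map_inv, e0, e1]
    rw [h0, h1, mul_inv_cancel]
  let f : G →* Γ := PresentedGroup.toGroup hr
  have fX : f X = Ψ x := by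
    change PresentedGroup.toGroup hr (PresentedGroup.of 0) = _
    rw [PresentedGroup.toGroup.of]
    rfl
  have fT : f T = τ := by
    change PresentedGroup.toGroup hr (PresentedGroup.of 1) = _
    rw [PresentedGroup.toGroup.of]
    rfl
  refine ⟨f, fT, fun w => ?_⟩
  have h2 : f.comp io = Ψ := by
    apply FreeGroup.ext_hom
    intro i
    fin_cases i
    · change f (io x) = Ψ x
      rw [io_x, fX]
    · change f (io y) = Ψ y
      rw [io_y, Y, map_mul, map_mul, map_inv, fX, fT, h0]
  exact DFunLike.congr_fun h2 w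

/-- The exponent sum in `t`. -/
theorem toZ (m : ℕ) [NeZero m] : ∃ f : G →* Multiplicative (ZMod m), f T = Multiplicative.ofAdd 1 ∧
    ∀ w, f (io w) = 1 := by
  obtain ⟨f, h1, h2⟩ := toFin (Γ := Multiplicative (ZMod m)) 1 (Multiplicative.ofAdd 1) (fun p => by
    simp)
  exact ⟨f, h1, fun w => by rw [h2]; rfl⟩

theorem sep {Γ : Type} [Group Γ] [Finite Γ] (f : G →* Γ) {g : G} (h : f g ≠ 1) :
    ∃ N : Subgroup G, N.Normal ∧ N.FiniteIndex ∧ g ∉ N :=
  ⟨f.ker, inferInstance, inferInstance, fun h1 => h h1⟩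

/-- Residual finiteness. -/
theorem rf (g : G) (hg : g ≠ 1) : ∃ N : Subgroup G, N.Normal ∧ N.FiniteIndex ∧ g ∉ N := by
  obtain ⟨a, b, w, rfl⟩ := nform g
  by_cases hab : a = b
  · subst hab
    have hw : w ≠ 1 := by
      rintro rfl
      exact hg (by rw [map_one, mul_one, inv_mul_cancel])
    obtain ⟨Γ, i1, i2, Ψ, τ, h1, h2⟩ := quot hw
    obtain ⟨f, h3, h4⟩ := toFin Ψ τ h1
    refine sep f ?_
    rw [map_mul, map_mul, map_inv, map_pow, h3, h4]
    intro h5
    apply h2
    have h6 : Ψ w = τ ^ a * ((τ ^ a)⁻¹ * Ψ w * τ ^ a) * (τ ^ a)⁻¹ := by group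
    rw [h6, h5]
    group
  · have : NeZero (a + b + 1) := ⟨by omega⟩
    obtain ⟨f, h1, h2⟩ := toZ (a + b + 1)
    refine sep f ?_
    rw [map_mul, map_mul, map_inv, map_pow, map_pow, h1, h2, mul_one]
    intro h3
    rw [inv_mul_eq_one] at h3
    have h4 : ((a : ℕ) : ZMod (a + b + 1)) = ((b : ℕ) : ZMod (a + b + 1)) := by
      have := congrArg Multiplicative.toAdd h3
      simpa using this
    rw [ZMod.natCast_eq_natCast_iff] at h4
    have h5 : a % (a + b + 1) = b % (a + b + 1) := h4
    rw [Nat.mod_eq_of_lt (by omega), Nat.mod_eq_of_lt (by omega)] at h5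
    exact hab h5

theorem X_ne : X ≠ 1 := by
  intro h
  have hx : x ≠ 1 := FreeGroup.of_ne_one 0
  obtain ⟨Γ, i1, i2, Ψ, τ, h1, h2⟩ := quot hx
  obtain ⟨f, h3, h4⟩ := toFin Ψ τ h1
  apply h2
  rw [← h4, io_x, h, map_one]

theorem perf : Subgroup.normalClosure ({X} : Set G) ≤
    ⁅Subgroup.normalClosure ({X} : Set G), Subgroup.normalClosure ({X} : Set G)⁆ := by
  apply Subgroup.normalClosure_le_normal
  rw [Set.singleton_subset_iff, SetLike.mem_coe]
  have hX : X ∈ Subgroup.normalClosure ({X} : Set G) := Subgroup.subset_normalClosure rfl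
  have hY : Y ∈ Subgroup.normalClosure ({X} : Set G) :=
    Subgroup.normalClosure_normal.conj_mem X hX T
  have h1 : T * Y * T⁻¹ ∈ ⁅Subgroup.normalClosure ({X} : Set G),
      Subgroup.normalClosure ({X} : Set G)⁆ := by
    rw [rel_G]
    exact Subgroup.commutator_mem_commutator hX hY
  have hn : (⁅Subgroup.normalClosure ({X} : Set G),
      Subgroup.normalClosure ({X} : Set G)⁆).Normal := inferInstance
  have h2 := hn.conj_mem _ (hn.conj_mem _ h1 T⁻¹) T⁻¹
  have h3 : T⁻¹ * (T⁻¹ * (T * Y * T⁻¹) * T⁻¹⁻¹) * T⁻¹⁻¹ = X := by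
    unfold Y
    group
  rwa [h3] at h2

theorem le_der (k : ℕ) : Subgroup.normalClosure ({X} : Set G) ≤ derivedSeries G k := by
  induction k with
  | zero => rw [derivedSeries_zero]; exact le_top
  | succ k ih =>
    rw [derivedSeries_succ]
    exact perf.trans (Subgroup.commutator_mono ih ih)

theorem X_mem (k : ℕ) : X ∈ derivedSeries G k :=
  le_der k (Subgroup.subset_normalClosure rfl)

end Pool.Agent.TH922.OneRel
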